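import Pool.Agent.Helper15.T6.Stmts

set_option autoImplicit false

/-!
MP_2f9829_co (T6): the values of the form at the products (module PTV).
-/

open Finset MeasureTheory Filter Topology

namespace Pool.Agent.Helper53.T6

open Pool.Agent.Helper15.T4 (IsPM PM cov IsMat nsq po)
open Pool.Agent.Helper15.T6

/-- Sums over the labels of the replicas of a product over the pairs. -/
theorem sum_prod_pair {R X : Type} [CommRing R] [Fintype X] {J : Type} [Fintype J] [DecidableEq J]
    {K : ℕ} (φ : Fin K × Fin 2 ≃ J) (F : Fin K → X → X → R) :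
    ∑ a : J → X, ∏ p, F p (a (φ (p, 0))) (a (φ (p, 1))) = ∏ p, ∑ i, ∑ j, F p i j := by
  classical
  let e : (J → X) ≃ (Fin K → X × X) :=
    { toFun := fun a p => (a (φ (p, 0)), a (φ (p, 1)))
      invFun := fun b j => if (φ.symm j).2 = 0 then (b (φ.symm j).1).1 else (b (φ.symm j).1).2
      left_inv := by
        intro a
        funext j
        have h : ∀ q : Fin K × Fin 2, (if q.2 = 0 then a (φ (q.1, 0)) else a (φ (q.1, 1))) = a (φ q) := by
          rintro ⟨p, i⟩
          fin_cases i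
          · simp
          · simp
        have := h (φ.symm j)
        simpa using this
      right_inv := by
        intro b
        funext p
        simp }
  have h1 : ∑ a : J → X, ∏ p, F p (a (φ (p, 0))) (a (φ (p, 1))) =
      ∑ b : Fin K → X × X, ∏ p, F p (b p).1 (b p).2 :=
    Fintype.sum_equiv e _ _ (fun a => rfl)
  rw [h1]
  have h2 := Finset.prod_univ_sum (fun _ : Fin K => (univ : Finset (X × X)))
    (fun p b => F p b.1 b.2)
  rw [Fintype.piFinset_univ] at h2
  rw [← h2]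
  refine Finset.prod_congr rfl fun p _ => ?_
  rw [Fintype.sum_prod_type]

/-- The product over the replicas as a product over the pairs. -/
theorem prod_pair {R : Type} [CommRing R] {J : Type} [Fintype J] {K : ℕ}
    (φ : Fin K × Fin 2 ≃ J) (g : J → R) :
    ∏ j, g j = ∏ p, g (φ (p, 0)) * g (φ (p, 1)) := by
  rw [← φ.prod_comp, Fintype.prod_prod_type]
  refine Finset.prod_congr rfl fun p _ => ?_
  rw [Fin.prod_univ_two]

/-- one pair of replicas -/
theorem one_pair {d : ℕ} (A : Md d) :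
    ∑ π : Equiv.Perm (Fin d), ∑ π' : Equiv.Perm (Fin d),
      ((((Equiv.Perm.sign π : ℤˣ) : ℤ)) : ℝ) * ((((Equiv.Perm.sign π' : ℤˣ) : ℤ)) : ℝ) *
        ∏ i, A (π i) (π' i) = (d.factorial : ℝ) * A.det := by
  have h1 : ∀ π : Equiv.Perm (Fin d), ∑ π' : Equiv.Perm (Fin d),
      ((((Equiv.Perm.sign π : ℤˣ) : ℤ)) : ℝ) * ((((Equiv.Perm.sign π' : ℤˣ) : ℤ)) : ℝ) *
        ∏ i, A (π i) (π' i) = A.det := by
    intro π
    have h2 : (A.submatrix π id).det = ∑ π' : Equiv.Perm (Fin d),
        ((((Equiv.Perm.sign π' : ℤˣ) : ℤ)) : ℝ) * ∏ i, A (π i) (π' i) := by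
      rw [← Matrix.det_transpose, Matrix.det_apply']
      refine Finset.sum_congr rfl fun π' _ => ?_
      rfl
    rw [Matrix.det_permute] at h2
    simp only [mul_assoc]
    rw [← Finset.mul_sum, ← h2, ← mul_assoc]
    rcases Int.units_eq_one_or (Equiv.Perm.sign π) with h | h <;> simp [h]
  rw [Finset.sum_congr rfl fun π _ => h1 π]
  simp [Fintype.card_perm]

theorem pj_pt {d : ℕ} {J : Type} [Fintype J] [DecidableEq J] {K : ℕ} (φ : Fin K × Fin 2 ≃ J)
    (O : Fin K → Md d) : PJ J (pt φ O) = qd d ^ K * ∏ p, (O p).det := by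
  unfold PJ TJ
  have e1 : ∀ π : J → Equiv.Perm (Fin d), (∏ j, ((((Equiv.Perm.sign (π j) : ℤˣ) : ℤ)) : ℝ)) *
      ∏ i : Fin d, pt φ O (fun j => π j i) =
      ∏ p, ((((Equiv.Perm.sign (π (φ (p, 0))) : ℤˣ) : ℤ)) : ℝ) *
        ((((Equiv.Perm.sign (π (φ (p, 1))) : ℤˣ) : ℤ)) : ℝ) *
        ∏ i, (O p (π (φ (p, 0)) i) (π (φ (p, 1)) i) / Real.sqrt d) := by
    intro π
    rw [prod_pair φ]
    unfold pt
    rw [Finset.prod_comm, ← Finset.prod_mul_distrib]
  rw [Finset.sum_congr rfl fun π _ => e1 π]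
  rw [sum_prod_pair φ (fun p (π π' : Equiv.Perm (Fin d)) => ((((Equiv.Perm.sign π : ℤˣ) : ℤ)) : ℝ) *
        ((((Equiv.Perm.sign π' : ℤˣ) : ℤ)) : ℝ) * ∏ i, (O p (π i) (π' i) / Real.sqrt d))]
  have e3 : (qd d ^ K : ℝ) = ∏ _p : Fin K, qd d := by simp
  rw [e3, ← Finset.prod_mul_distrib]
  refine Finset.prod_congr rfl fun p _ => ?_
  have e4 := one_pair (O p)
  unfold qd
  rw [div_mul_eq_mul_div, ← e4, Finset.sum_div]
  refine Finset.sum_congr rfl fun π _ => ?_
  rw [Finset.sum_div]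
  refine Finset.sum_congr rfl fun π' _ => ?_
  rw [Finset.prod_div_distrib, Finset.prod_const, Finset.card_univ, Fintype.card_fin, mul_div_assoc]

theorem ip_pt {d : ℕ} {J : Type} [Fintype J] [DecidableEq J] {K : ℕ} (φ : Fin K × Fin 2 ≃ J)
    (O O' : Fin K → Md d) :
    ip (pt φ O) (pt φ O') = ∏ p, ((O p).transpose * O' p).trace / d := by
  have e1 : ∀ a : J → Fin d, pt φ O a * pt φ O' a =
      ∏ p, (O p (a (φ (p, 0))) (a (φ (p, 1))) / Real.sqrt d) *
        (O' p (a (φ (p, 0))) (a (φ (p, 1))) / Real.sqrt d) := by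
    intro a
    unfold pt
    rw [← Finset.prod_mul_distrib]
  unfold ip
  rw [Finset.sum_congr rfl fun a _ => e1 a,
    sum_prod_pair φ (fun p i j => (O p i j / Real.sqrt d) * (O' p i j / Real.sqrt d))]
  refine Finset.prod_congr rfl fun p _ => ?_
  have h3 : Real.sqrt d * Real.sqrt d = d := Real.mul_self_sqrt (Nat.cast_nonneg d)
  have e2 : ∀ i j, (O p i j / Real.sqrt d) * (O' p i j / Real.sqrt d) =
      O p i j * O' p i j / d := by
    intro i j
    rw [div_mul_div_comm, h3]
  simp only [e2]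
  rw [Matrix.trace, Finset.sum_comm]
  simp only [Matrix.diag, Matrix.mul_apply, Matrix.transpose_apply]
  rw [Finset.sum_div]
  refine Finset.sum_congr rfl fun i _ => ?_
  rw [Finset.sum_div]

theorem st_PTV : ST_PTV := by
  intro d hd K J _ _ φ O O' hO
  have h1 : nsq (pt φ O) = 1 := by
    have e1 : nsq (pt φ O) = ip (pt φ O) (pt φ O) := by
      unfold nsq ip
      exact Finset.sum_congr rfl fun a _ => by ring
    rw [e1, ip_pt]
    refine Finset.prod_eq_one fun p _ => ?_
    have e2 : (O p).transpose * O p = 1 := mul_eq_one_comm.mp (hO p)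
    rw [e2, Matrix.trace_one, Fintype.card_fin]
    exact div_self (by exact_mod_cast (Nat.one_le_iff_ne_zero.mp hd))
  exact ⟨pj_pt φ O, h1, ip_pt φ O O'⟩

end Pool.Agent.Helper53.T6
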