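import Pool.Agent.Helper46.T6.Stmts

set_option autoImplicit false

/-!
MP_2f9829_co (T6, analytic block): the exponent near the peak (module NEAR).
-/

open Finset MeasureTheory Filter Topology

namespace Pool.Agent.Helper53.T6L

open Pool.Agent.Helper15.T4 (IsPM PM cov IsMat nsq po)
open Pool.Agent.Helper15.T6
open Pool.Agent.Helper46.T6

theorem near_cs {ι : Type} [Fintype ι] (x y : ι → ℝ) :
    |ip x y| ≤ Real.sqrt (nsq x) * Real.sqrt (nsq y) := by
  have h0 : 0 ≤ nsq x := Finset.sum_nonneg fun _ _ => sq_nonneg _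
  rw [← Real.sqrt_mul h0]
  refine Real.abs_le_sqrt ?_
  exact Finset.sum_mul_sq_le_sq_mul_sq Finset.univ x y

theorem near_nsq_nonneg {ι : Type} [Fintype ι] (x : ι → ℝ) : 0 ≤ nsq x :=
  Finset.sum_nonneg fun _ _ => sq_nonneg _

theorem st_NEAR (tanp : ST_TANP) (loc : ST_LOC) : ST_NEAR := by
  intro d hd K
  obtain ⟨C, hC, hloc⟩ := loc d hd K
  obtain ⟨-, -, ht⟩ := tanp d hd K
  refine ⟨2 * Real.sqrt C, by positivity, ?_⟩
  intro g e O hg hO
  obtain ⟨l1, l2⟩ := hloc O hO
  have hS : 0 ≤ ∑ p, nsqm (O p - 1) :=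
    Finset.sum_nonneg fun p _ => Finset.sum_nonneg fun _ _ => Finset.sum_nonneg fun _ _ => sq_nonneg _
  set S := ∑ p, nsqm (O p - 1) with hSd
  set w : (Fin K × Fin 2 → Fin d) → ℝ := fun a => pt (Equiv.refl _) O a - u0 d K a with hw
  set β : Fin K → Md d := fun p => (1 / 2 : ℝ) • (O p - (O p).transpose) with hβ
  have hβa : ∀ p, (β p).transpose = -β p := by
    intro p
    rw [hβ]
    simp only [Matrix.transpose_smul, Matrix.transpose_sub, Matrix.transpose_transpose]
    rw [← smul_neg, neg_sub]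
  have h0 : ip g (Lmd β) = 0 := ht g hg β hβa
  have e1 : nsq (fun a => u0 d K a + g a + e a - pt (Equiv.refl _) O a) -
      (nsq (fun a => g a + e a) + nsq w) = -2 * (ip g (fun a => w a - Lmd β a) + ip e w) := by
    have e2 : ip g (fun a => w a - Lmd β a) = ip g w - ip g (Lmd β) := by
      unfold ip
      rw [← Finset.sum_sub_distrib]
      exact Finset.sum_congr rfl fun a _ => by ring
    rw [e2, h0]
    unfold nsq ip
    rw [sub_zero, ← Finset.sum_add_distrib, ← Finset.sum_add_distrib, ← Finset.sum_sub_distrib,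
      Finset.mul_sum]
    refine Finset.sum_congr rfl fun a _ => ?_
    simp only [hw]
    ring
  rw [e1, abs_mul]
  have a1 : |ip g (fun a => w a - Lmd β a)| ≤ Real.sqrt (nsq g) * (Real.sqrt C * S) := by
    refine (near_cs _ _).trans (mul_le_mul_of_nonneg_left ?_ (Real.sqrt_nonneg _))
    rw [← Real.sqrt_sq hS, ← Real.sqrt_mul hC.le]
    exact Real.sqrt_le_sqrt l1
  have a2 : |ip e w| ≤ Real.sqrt (nsq e) * (Real.sqrt C * Real.sqrt S) := by
    refine (near_cs _ _).trans (mul_le_mul_of_nonneg_left ?_ (Real.sqrt_nonneg _))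
    rw [← Real.sqrt_mul hC.le]
    exact Real.sqrt_le_sqrt l2
  have h2 : |(-2 : ℝ)| = 2 := by norm_num
  rw [h2]
  calc 2 * |ip g (fun a => w a - Lmd β a) + ip e w|
      ≤ 2 * (|ip g (fun a => w a - Lmd β a)| + |ip e w|) := by
        gcongr; exact abs_add_le _ _
    _ ≤ 2 * (Real.sqrt (nsq g) * (Real.sqrt C * S) + Real.sqrt (nsq e) * (Real.sqrt C * Real.sqrt S)) := by
        gcongr
    _ = 2 * Real.sqrt C * (Real.sqrt (nsq g) * S + Real.sqrt (nsq e) * Real.sqrt S) := by ring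

end Pool.Agent.Helper53.T6L
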