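import Pool.Agent.Helper46.T6.Stmts
import Pool.Agent.Helper53.T6.PTV

set_option autoImplicit false

/-!
MP_2f9829_co (T6, analytic block): the values at the products (PTV) and the distance to the peak (DISTP).
-/

open Finset MeasureTheory Filter Topology

namespace Pool.Agent.Helper53.T6L

open Pool.Agent.Helper15.T4 (IsPM PM cov IsMat nsq po)
open Pool.Agent.Helper15.T6
open Pool.Agent.Helper46.T6 (nsqm OD)

theorem st_PTV : Pool.Agent.Helper46.T6.ST_PTV := by
  intro d hd K J _ _ φ O O' hO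
  obtain ⟨h1, h2, h3⟩ := Pool.Agent.Helper53.T6.st_PTV d (by omega) K J φ O O' hO
  exact ⟨by rw [h1, mul_comm], h2, h3⟩

/-- products of numbers in `[-1, 1]` near `1` -/
theorem prod_near {ι : Type} (s : Finset ι) (x : ι → ℝ) (h0 : ∀ i, 0 ≤ x i) (h2 : ∀ i, x i ≤ 2) :
    |∏ i ∈ s, (1 - x i)| ≤ 1 ∧ |1 - ∏ i ∈ s, (1 - x i)| ≤ ∑ i ∈ s, x i ∧
      |∏ i ∈ s, (1 - x i) - 1 + ∑ i ∈ s, x i| ≤ (∑ i ∈ s, x i) ^ 2 / 2 := by
  classical
  induction s using Finset.induction_on with
  | empty => simp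
  | insert a s ha ih =>
    obtain ⟨i1, i2, i3⟩ := ih
    rw [Finset.prod_insert ha, Finset.sum_insert ha]
    have ha0 := h0 a
    have ha2 := h2 a
    have hS : 0 ≤ ∑ i ∈ s, x i := Finset.sum_nonneg fun i _ => h0 i
    set P := ∏ i ∈ s, (1 - x i) with hP
    set S := ∑ i ∈ s, x i with hSd
    have b1 := abs_le.mp i1
    have b2 := abs_le.mp i2
    have b3 := abs_le.mp i3
    have c1 : |1 - x a| ≤ 1 := abs_le.mpr ⟨by linarith, by linarith⟩
    refine ⟨?_, ?_, ?_⟩
    · rw [abs_mul]
      exact mul_le_one₀ c1 (abs_nonneg _) i1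
    · have e : 1 - (1 - x a) * P = (1 - P) + x a * P := by ring
      rw [e]
      refine (abs_add_le _ _).trans ?_
      have : |x a * P| ≤ x a := by
        rw [abs_mul, abs_of_nonneg ha0]
        nlinarith [abs_nonneg P]
      linarith
    · have e : (1 - x a) * P - 1 + (x a + S) = (P - 1 + S) + x a * (1 - P) := by ring
      rw [e]
      refine (abs_add_le _ _).trans ?_
      have h4 : |x a * (1 - P)| ≤ x a * S := by
        rw [abs_mul, abs_of_nonneg ha0]
        exact mul_le_mul_of_nonneg_left i2 ha0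
      nlinarith [sq_nonneg (x a)]

/-- the squared distance of an orthogonal matrix to the unit matrix -/
theorem nsqm_sub_one {d : ℕ} (O : Md d) (hO : OD O) : nsqm (O - 1) = 2 * d - 2 * O.trace := by
  have h1 : ∑ i, ∑ j, O i j ^ 2 = (d : ℝ) := by
    have e : ∀ i, ∑ j, O i j ^ 2 = (1 : ℝ) := by
      intro i
      have h := congrFun (congrFun hO i) i
      rw [Matrix.mul_apply, Matrix.one_apply_eq] at h
      rw [← h]
      exact Finset.sum_congr rfl fun j _ => by rw [Matrix.transpose_apply]; ring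
    rw [Finset.sum_congr rfl fun i _ => e i]
    simp
  have h2 : ∀ i j, (O - 1) i j ^ 2 = O i j ^ 2 - 2 * (O i j * (1 : Md d) i j) + (1 : Md d) i j := by
    intro i j
    rw [Matrix.sub_apply]
    by_cases hij : i = j
    · rw [hij, Matrix.one_apply_eq]; ring
    · rw [Matrix.one_apply_ne hij]; ring
  unfold nsqm
  simp only [h2, Finset.sum_add_distrib, Finset.sum_sub_distrib, ← Finset.mul_sum]
  rw [h1]
  have h3 : ∑ i, ∑ j, O i j * (1 : Md d) i j = O.trace := by
    unfold Matrix.trace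
    refine Finset.sum_congr rfl fun i _ => ?_
    rw [Finset.sum_eq_single i]
    · rw [Matrix.one_apply_eq, mul_one]; rfl
    · intro j _ hj
      rw [Matrix.one_apply_ne hj.symm, mul_zero]
    · intro hc; exact absurd (Finset.mem_univ _) hc
  have h4 : ∑ i, ∑ j, (1 : Md d) i j = (d : ℝ) := by
    have e : ∀ i, ∑ j, (1 : Md d) i j = (1 : ℝ) := by
      intro i
      rw [Finset.sum_eq_single i]
      · rw [Matrix.one_apply_eq]
      · intro j _ hj
        rw [Matrix.one_apply_ne hj.symm]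
      · intro hc; exact absurd (Finset.mem_univ _) hc
    rw [Finset.sum_congr rfl fun i _ => e i]
    simp
  rw [h3, h4]
  ring

theorem nsqm_nonneg {d : ℕ} (A : Md d) : 0 ≤ nsqm A :=
  Finset.sum_nonneg fun _ _ => Finset.sum_nonneg fun _ _ => sq_nonneg _

theorem st_DISTP : Pool.Agent.Helper46.T6.ST_DISTP := by
  intro d hd K O hO
  have hd0 : (0 : ℝ) < d := by exact_mod_cast hd
  have hd1 : (1 : ℝ) ≤ d := by exact_mod_cast hd
  have hone : ∀ _p : Fin K, OD (1 : Md d) := by
    intro p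
    unfold OD
    rw [Matrix.transpose_one, mul_one]
  obtain ⟨-, n1, i1⟩ := Pool.Agent.Helper53.T6.st_PTV d hd K (Fin K × Fin 2) (Equiv.refl _) O
    (fun _ => 1) hO
  obtain ⟨-, n2, -⟩ := Pool.Agent.Helper53.T6.st_PTV d hd K (Fin K × Fin 2) (Equiv.refl _)
    (fun _ => (1 : Md d)) (fun _ => 1) hone
  have e1 : nsq (fun a => pt (Equiv.refl _) O a - u0 d K a) = 2 - 2 * ∏ p, (O p).trace / d := by
    have e : nsq (fun a => pt (Equiv.refl _) O a - u0 d K a) = nsq (pt (Equiv.refl _) O) +
        nsq (pt (Equiv.refl (Fin K × Fin 2)) (fun _ => (1 : Md d))) -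
          2 * ip (pt (Equiv.refl _) O) (pt (Equiv.refl _) (fun _ => 1)) := by
      unfold nsq ip u0
      rw [Finset.mul_sum, ← Finset.sum_add_distrib, ← Finset.sum_sub_distrib]
      exact Finset.sum_congr rfl fun a _ => by ring
    rw [e, n1, n2, i1]
    have : ∀ p : Fin K, ((O p).transpose * 1).trace = (O p).trace := by
      intro p
      rw [mul_one, Matrix.trace_transpose]
    simp only [this]
    ring
  have e2 : ∀ p, nsqm (O p - 1) = 2 * d - 2 * (O p).trace := fun p => nsqm_sub_one (O p) (hO p)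
  refine ⟨e1, e2, ?_⟩
  -- x p = 1 - tr / d
  have hx : ∀ p, 1 - (O p).trace / d = nsqm (O p - 1) / (2 * d) := by
    intro p
    rw [e2 p]
    field_simp
  have hx0 : ∀ p, 0 ≤ 1 - (O p).trace / d := by
    intro p
    rw [hx p]
    exact div_nonneg (nsqm_nonneg _) (by positivity)
  have hx2 : ∀ p, 1 - (O p).trace / d ≤ 2 := by
    intro p
    have e3 : nsqm (-O p - 1) = 2 * d - 2 * (-O p).trace := by
      refine nsqm_sub_one (-O p) ?_
      have := hO p
      unfold OD at this ⊢
      rw [Matrix.transpose_neg, neg_mul_neg, this]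
    have e4 := nsqm_nonneg (-O p - 1)
    rw [e3, Matrix.trace_neg] at e4
    have e5 : -(d : ℝ) ≤ (O p).trace := by linarith
    have e6 : -1 ≤ (O p).trace / d := by
      rw [le_div_iff₀ hd0]
      linarith
    linarith
  obtain ⟨-, -, b3⟩ := prod_near (Finset.univ : Finset (Fin K)) (fun p => 1 - (O p).trace / d) hx0 hx2
  have hprod : ∏ p : Fin K, (1 - (1 - (O p).trace / d)) = ∏ p, (O p).trace / d :=
    Finset.prod_congr rfl fun p _ => by ring
  rw [hprod] at b3
  set S := ∑ p, (1 - (O p).trace / d) with hS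
  have hsum : ∑ p, nsqm (O p - 1) = 2 * d * S := by
    rw [hS, Finset.mul_sum]
    refine Finset.sum_congr rfl fun p _ => ?_
    rw [hx p]
    field_simp
  rw [e1, hsum]
  have e7 : 2 - 2 * ∏ p, (O p).trace / d - 2 * d * S / d =
      -2 * (∏ p, (O p).trace / d - 1 + S) := by
    field_simp
    ring
  rw [e7, abs_mul]
  have hd2 : (1 : ℝ) ≤ (d : ℝ) ^ 2 := one_le_pow₀ hd1
  have : |(-2 : ℝ)| = 2 := by norm_num
  rw [this]
  nlinarith [sq_nonneg S]

end Pool.Agent.Helper53.T6L
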